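import Pool.Agent.K1H22.DF.Stm

set_option autoImplicit false

namespace Pool.Agent.K1H74.DF

open Finset Pool.Agent.K1H22.DF

theorem t_BALL : S_BALL := by
  intro V _ _ G _ D u j hu
  induction j with
  | zero =>
    refine ⟨fun x hx => ?_, ?_⟩
    · rw [ball, mem_singleton] at hx
      rw [hx]; exact hu
    · simp [ball]
  | succ j ih =>
    obtain ⟨ih1, ih2⟩ := ih
    constructor
    · intro x hx
      rw [ball, mem_union, mem_biUnion] at hx
      rcases hx with hx | ⟨y, _, hx⟩
      · exact ih1 x hx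
      · exact (mem_filter.1 hx).2
    · rw [ball]
      have h1 : ((ball G D u j).biUnion
          (fun x => (G.neighborFinset x).filter (fun y => y ∉ hub G D))).card ≤
          (ball G D u j).card * D := by
        apply card_biUnion_le_card_mul
        intro x hx
        have hx' := ih1 x hx
        have hdeg : G.degree x < D := by
          by_contra hcon
          push Not at hcon
          exact hx' (by simp [hub, hcon])
        exact (card_filter_le _ _).trans (by rw [SimpleGraph.card_neighborFinset_eq_degree]; exact hdeg.le)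
      calc _ ≤ (ball G D u j).card + (ball G D u j).card * D :=
            (card_union_le _ _).trans (Nat.add_le_add_left h1 _)
        _ = (ball G D u j).card * (1 + D) := by ring
        _ ≤ (1 + D) ^ j * (1 + D) := Nat.mul_le_mul_right _ ih2
        _ = (1 + D) ^ (j + 1) := (pow_succ _ _).symm

theorem t_MIN : S_MIN := by
  intro V _ _ G _ d k hk hV hA v
  by_contra hcon
  push Not at hcon
  have h1 : G.neighborFinset v ⊆ univ.erase v := by
    intro x hx
    rw [SimpleGraph.mem_neighborFinset] at hx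
    exact mem_erase.2 ⟨hx.ne.symm, mem_univ _⟩
  have h2 : (G.neighborFinset v).card ≤ k - 1 := by
    rw [SimpleGraph.card_neighborFinset_eq_degree]; omega
  have h3 : k - 1 ≤ (univ.erase v).card := by
    rw [card_erase_of_mem (mem_univ _), card_univ]; omega
  obtain ⟨S, hS1, hS2, hS3⟩ := exists_subsuperset_card_eq h1 h2 h3
  have hvS : v ∉ S := fun h => (mem_erase.1 (hS2 h)).1 rfl
  have h4 : (insert v S).card < (univ : Finset V).card := by
    rw [card_insert_of_notMem hvS, hS3, card_univ]; omega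
  obtain ⟨w, _, hw⟩ := exists_mem_notMem_of_card_lt_card h4
  have hwv : w ≠ v := fun h => hw (by rw [h]; exact mem_insert_self _ _)
  have hwS : w ∉ S := fun h => hw (mem_insert_of_mem h)
  have hR := hA S hS3 v w hvS hwS
  cases d with
  | zero => exact hwv hR.symm
  | succ d =>
    rcases hR with h | ⟨x, hx, hadj, _⟩
    · exact hwv h.symm
    · exact hx (hS1 (by rw [SimpleGraph.mem_neighborFinset]; exact hadj))

theorem t_DEG4 : S_DEG4 := by
  intro k D hk
  refine ⟨k + (1 + D) ^ 4 + 1, ?_⟩
  intro V _ _ G _ hA hC v hv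
  by_contra hcon
  rw [not_le] at hcon
  set M := (G.neighborFinset v).filter (fun x => ¬ (x ∉ hub G D ∧ hn G D x = ∅)) with hM
  set Z := univ.filter (fun v => v ∉ hub G D ∧ hn G D v = ∅) with hZ
  have hcard : Z.card ≤ Fintype.card V := card_le_univ _
  have h1 : M ⊆ univ.erase v := by
    intro x hx
    rw [hM, mem_filter, SimpleGraph.mem_neighborFinset] at hx
    exact mem_erase.2 ⟨hx.1.ne.symm, mem_univ _⟩
  have h3 : k - 1 ≤ (univ.erase v).card := by
    rw [card_erase_of_mem (mem_univ _), card_univ]; omega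
  obtain ⟨S, hS1, hS2, hS3⟩ := exists_subsuperset_card_eq h1 (by omega : M.card ≤ k - 1) h3
  have hvS : v ∉ S := fun h => (mem_erase.1 (hS2 h)).1 rfl
  have hb := (t_BALL V G D v 4 hv).2
  have h4 : (S ∪ ball G D v 4).card < Z.card := by
    have := card_union_le S (ball G D v 4)
    omega
  obtain ⟨w, hwZ, hw⟩ := exists_mem_notMem_of_card_lt_card h4
  have hwS : w ∉ S := fun h => hw (mem_union_left _ h)
  have hwB : w ∉ ball G D v 4 := fun h => hw (mem_union_right _ h)
  rw [hZ, mem_filter] at hwZ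
  have hsub : ∀ j, ball G D v j ⊆ ball G D v (j + 1) := by
    intro j x hx
    rw [ball]
    exact mem_union_left _ hx
  have hstep : ∀ j x y, x ∈ ball G D v j → G.Adj x y → y ∉ hub G D → y ∈ ball G D v (j + 1) := by
    intro j x y hx hxy hy
    rw [ball]
    apply mem_union_right
    rw [mem_biUnion]
    exact ⟨x, hx, mem_filter.2 ⟨by rw [SimpleGraph.mem_neighborFinset]; exact hxy, hy⟩⟩
  have hnh : ∀ x y, G.Adj x y → hn G D x = ∅ → y ∉ hub G D := by
    intro x y hxy hx hy
    have : y ∈ hn G D x := mem_filter.2 ⟨by rw [SimpleGraph.mem_neighborFinset]; exact hxy, hy⟩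
    rw [hx] at this
    exact notMem_empty _ this
  have hv0 : v ∈ ball G D v 0 := by rw [ball]; exact mem_singleton_self _
  have hR := hA S hS3 v w hvS hwS
  rcases hR with h | ⟨x1, hx1S, hvx1, hR⟩
  · exact hwB (h ▸ hsub 3 (hsub 2 (hsub 1 (hsub 0 hv0))))
  have hx1 : x1 ∉ hub G D ∧ hn G D x1 = ∅ := by
    by_contra hneg
    apply hx1S
    apply hS1
    rw [hM, mem_filter, SimpleGraph.mem_neighborFinset]
    exact ⟨hvx1, hneg⟩
  have b1 := hstep 0 v x1 hv0 hvx1 hx1.1
  rcases hR with h | ⟨x2, hx2S, hx12, hR⟩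
  · exact hwB (h ▸ hsub 3 (hsub 2 (hsub 1 b1)))
  have b2 := hstep 1 x1 x2 b1 hx12 (hnh x1 x2 hx12 hx1.2)
  rcases hR with h | ⟨x3, hx3S, hx23, hR⟩
  · exact hwB (h ▸ hsub 3 (hsub 2 b2))
  rcases hR with h | ⟨x4, hx4S, hx34, hR⟩
  · rw [h] at hx23
    exact hwB (hsub 3 (hstep 2 x2 w b2 hx23 hwZ.2.1))
  · have h44 : x4 = w := hR
    rw [h44] at hx34
    have b3 := hstep 2 x2 x3 b2 hx23 (hnh w x3 hx34.symm hwZ.2.2)
    exact hwB (hstep 3 x3 w b3 hx34 hwZ.2.1)

end Pool.Agent.K1H74.DF
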